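import Pool.Agent.H55.Siegel.SW
import Pool.Agent.H63.SW.Main

/-!
**Siegel-Walfisz in progressions**: for all `A B` there is `C` with
`|∑_{p ≤ x, p ≡ a (b)} log p - x/φ(b)| ≤ C x/(log x)^A` for `x ≥ 2`, `b ≤ (log x)^B`, `(a,b) = 1`.
-/

set_option autoImplicit false

open Finset
open scoped ComplexConjugate

namespace Pool.Agent.H55.Siegel

open Pool.Agent.H37.SFQ Pool.Agent.H37.SFG

/-- powers of the logarithm against `x` -/
lemma log_pow_le (k : ℕ) {x : ℝ} (hx : 2 ≤ x) : Real.log x ^ k ≤ k.factorial * x := by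
  have hL : 0 ≤ Real.log x := Real.log_nonneg (by linarith)
  have h := Real.pow_div_factorial_le_exp (Real.log x) hL k
  rw [Real.exp_log (by linarith), div_le_iff₀ (by positivity)] at h
  linarith

/-- prime divisors of a small modulus -/
lemma small_le (A B : ℕ) {x : ℝ} (hx : 2 ≤ x) {b : ℕ} (hb : 1 ≤ b)
    (hbx : (b : ℝ) ≤ Real.log x ^ B) : Real.log b ≤ (A + B).factorial * x / Real.log x ^ A := by
  have hL : 0 < Real.log x := Real.log_pos (by linarith)
  have hb1 : (1 : ℝ) ≤ b := by exact_mod_cast hb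
  rw [le_div_iff₀ (by positivity)]
  have h1 : Real.log b ≤ b := (Real.log_le_sub_one_of_pos (by linarith)).trans (by linarith)
  calc Real.log b * Real.log x ^ A ≤ Real.log x ^ B * Real.log x ^ A := by
        gcongr
        exact h1.trans hbx
    _ = Real.log x ^ (A + B) := by rw [← pow_add, add_comm]
    _ ≤ _ := log_pow_le _ hx

/-- prime sums of all nontrivial characters of modulus up to `(log x)^B` -/
theorem theta_all (A B : ℕ) : ∃ C : ℝ, 0 ≤ C ∧ ∀ x : ℝ, 2 ≤ x → ∀ b : ℕ, 1 ≤ b →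
    (b : ℝ) ≤ Real.log x ^ B → ∀ χ : DirichletCharacter ℂ b, χ ≠ 1 →
    ‖∑ p ∈ Finset.Ioc 0 ⌊x⌋₊ with p.Prime, χ p * ((Real.log p : ℝ) : ℂ)‖ ≤
      C * x / Real.log x ^ A := by
  classical
  obtain ⟨C, hC⟩ := theta_prim A B
  refine ⟨|C| + (A + B).factorial, by positivity, fun x hx b hb hbx χ hχ => ?_⟩
  have : NeZero b := ⟨by omega⟩
  have hL : 0 < Real.log x := Real.log_pos (by linarith)
  have hx0 : 0 < x := by linarith
  set S := (Finset.Ioc 0 ⌊x⌋₊).filter Nat.Prime with hS
  set ψ := χ.primitiveCharacter with hψ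
  have hd := χ.conductor_dvd_level
  have hd0 : 1 ≤ χ.conductor := by
    rw [Nat.one_le_iff_ne_zero]
    intro h
    rw [h, zero_dvd_iff] at hd
    omega
  have hdb : (χ.conductor : ℝ) ≤ b := by exact_mod_cast Nat.le_of_dvd (by omega) hd
  have hψ1 : ψ ≠ 1 := by
    intro h
    apply hχ
    have h2 := χ.changeLevel_primitiveCharacter
    rw [← hψ, h, map_one] at h2
    exact h2.symm
  have h1 := hC x hx χ.conductor hd0 (hdb.trans hbx) ψ hψ1 χ.primitiveCharacter_isPrimitive
  -- the difference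
  have h2 : ∑ p ∈ S, χ p * ((Real.log p : ℝ) : ℂ) = ∑ p ∈ S, ψ p * ((Real.log p : ℝ) : ℂ) -
      ∑ p ∈ S.filter (fun p => ¬ p.Coprime b), ψ p * ((Real.log p : ℝ) : ℂ) := by
    rw [eq_sub_iff_add_eq, Finset.sum_filter (fun p : ℕ => ¬ p.Coprime b), ← Finset.sum_add_distrib]
    refine Finset.sum_congr rfl fun p _ => ?_
    by_cases hc : p.Coprime b
    · rw [if_neg (not_not.2 hc), add_zero]
      congr 1
      exact (ev_prim χ hc).symm
    · rw [if_pos hc, char_nat_eq_zero χ hc, zero_mul, zero_add]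
  have h3 : ‖∑ p ∈ S.filter (fun p => ¬ p.Coprime b), ψ p * ((Real.log p : ℝ) : ℂ)‖ ≤
      Real.log b := by
    refine (norm_sum_le _ _).trans ?_
    have h4 : ∀ p ∈ S.filter (fun p => ¬ p.Coprime b), ‖ψ p * ((Real.log p : ℝ) : ℂ)‖ ≤
        Real.log p := by
      intro p _
      rw [norm_mul, Complex.norm_real, Real.norm_of_nonneg (Real.log_natCast_nonneg p)]
      have h5 := DirichletCharacter.norm_le_one ψ (p : ZMod χ.conductor)
      have h6 := Real.log_natCast_nonneg p
      nlinarith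
    refine (Finset.sum_le_sum h4).trans ?_
    refine sum_log_dvd_le (by omega) _ fun p hp => ?_
    rw [Finset.mem_filter, hS, Finset.mem_filter] at hp
    refine ⟨hp.1.2, ?_⟩
    by_contra hcon
    exact hp.2 ((Nat.Prime.coprime_iff_not_dvd hp.1.2).2 hcon)
  have h4 := small_le A B hx hb hbx
  have h5 : C * x / Real.log x ^ A ≤ |C| * x / Real.log x ^ A := by
    gcongr
    exact le_abs_self C
  change ‖∑ p ∈ S, χ p * ((Real.log p : ℝ) : ℂ)‖ ≤ _
  rw [h2]
  refine (norm_sub_le _ _).trans ?_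
  have e : (|C| + ((A + B).factorial : ℝ)) * x / Real.log x ^ A =
      |C| * x / Real.log x ^ A + (A + B).factorial * x / Real.log x ^ A := by ring
  rw [e]
  exact add_le_add (h1.trans h5) (h3.trans h4)

/-- **Siegel-Walfisz in progressions** -/
theorem theta_AP (A B : ℕ) : ∃ C : ℝ, ∀ x : ℝ, 2 ≤ x → ∀ b a : ℕ, 1 ≤ b →
    (b : ℝ) ≤ Real.log x ^ B → a.Coprime b →
    |∑ p ∈ (Ioc 0 ⌊x⌋₊).filter (fun p => p.Prime ∧ p % b = a % b), Real.log p - x / b.totient| ≤
      C * x / Real.log x ^ A := by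
  classical
  obtain ⟨C1, hC1⟩ := Pool.Agent.SW.theta_pnt A
  obtain ⟨C2, hC20, hC2⟩ := theta_all A B
  refine ⟨|C1| + (A + B).factorial + C2, fun x hx b a hb hbx hab => ?_⟩
  have : NeZero b := ⟨by omega⟩
  have hL : 0 < Real.log x := Real.log_pos (by linarith)
  have hx0 : 0 < x := by linarith
  set N := ⌊x⌋₊ with hN
  set r := a % b with hr
  have hrb : r < b := Nat.mod_lt _ (by omega)
  have hrc : r.Coprime b := by
    have h2 : Nat.gcd (a % b) b = Nat.gcd b a := (Nat.gcd_rec b a).symm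
    rw [hr, Nat.coprime_iff_gcd_eq_one, h2, Nat.gcd_comm]
    exact hab
  have hwp : wp 0 N = (Ioc 0 N).filter Nat.Prime := by
    unfold wp
    rw [zero_add]
  have hf : ∑ p ∈ (Ioc 0 N).filter (fun p => p.Prime ∧ p % b = r), Real.log p = fW 0 N b r := by
    unfold fW
    rw [hwp, Finset.filter_filter]
  rw [hf]
  set T : DirichletCharacter ℂ b → ℂ := fun χ => ∑ p ∈ wp 0 N, (Real.log p : ℂ) * χ p with hT
  have hfour : ((b.totient * fW 0 N b r : ℝ) : ℂ) =
      ∑ χ : DirichletCharacter ℂ b, T χ * conj (χ r) := fW_fourier hrb hrc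
  have hsmall := small_le A B hx hb hbx
  have hT1 : ‖T 1 - x‖ ≤ |C1| * x / Real.log x ^ A + Real.log b := by
    have e1 : T 1 = ((∑ p ∈ (wp 0 N).filter (fun p => p.Coprime b), Real.log p : ℝ) : ℂ) := by
      rw [hT, Finset.sum_filter, Complex.ofReal_sum]
      refine Finset.sum_congr rfl fun p _ => ?_
      by_cases hp : p.Coprime b
      · rw [if_pos hp]
        have : IsUnit (p : ZMod b) := (ZMod.isUnit_iff_coprime p b).2 hp
        rw [MulChar.one_apply this, mul_one]
      · rw [if_neg hp]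
        have : ¬ IsUnit (p : ZMod b) := fun hu => hp ((ZMod.isUnit_iff_coprime p b).1 hu)
        rw [MulChar.map_nonunit _ this, mul_zero, Complex.ofReal_zero]
    have e2 : Chebyshev.theta x = ∑ p ∈ wp 0 N, Real.log p := by
      rw [Chebyshev.theta, hwp]
    have e3 : Chebyshev.theta x = ∑ p ∈ (wp 0 N).filter (fun p => p.Coprime b), Real.log p +
        ∑ p ∈ (wp 0 N).filter (fun p => ¬ p.Coprime b), Real.log p := by
      rw [e2, Finset.sum_filter_add_sum_filter_not]
    have h2 : ∑ p ∈ (wp 0 N).filter (fun p => ¬ p.Coprime b), Real.log p ≤ Real.log b := by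
      refine sum_log_dvd_le (by omega) _ fun p hp => ?_
      rw [Finset.mem_filter, mem_wp] at hp
      refine ⟨hp.1.2, ?_⟩
      by_contra hcon
      exact hp.2 ((Nat.Prime.coprime_iff_not_dvd hp.1.2).2 hcon)
    have h3 : 0 ≤ ∑ p ∈ (wp 0 N).filter (fun p => ¬ p.Coprime b), Real.log p :=
      Finset.sum_nonneg fun p _ => Real.log_natCast_nonneg p
    have h4 := hC1 x hx
    have h5 : C1 * x / Real.log x ^ A ≤ |C1| * x / Real.log x ^ A := by
      gcongr
      exact le_abs_self C1
    rw [e1, ← Complex.ofReal_sub, Complex.norm_real, Real.norm_eq_abs]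
    have h6 := abs_le.1 (h4.trans h5)
    rw [abs_le]
    constructor <;> linarith [h6.1, h6.2]
  have hTχ : ∀ χ : DirichletCharacter ℂ b, χ ≠ 1 → ‖T χ‖ ≤ C2 * x / Real.log x ^ A := by
    intro χ hχ
    have h2 := hC2 x hx b hb hbx χ hχ
    have e1 : T χ = ∑ p ∈ Ioc 0 N with p.Prime, χ p * ((Real.log p : ℝ) : ℂ) := by
      simp only [hT]
      rw [hwp]
      exact Finset.sum_congr rfl fun p _ => mul_comm _ _
    rw [e1]
    exact h2
  have hφ : (1 : ℝ) ≤ b.totient := by
    exact_mod_cast Nat.totient_pos.2 (by omega)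
  have hcard : (((univ.erase (1 : DirichletCharacter ℂ b)).card : ℕ) : ℝ) ≤ b.totient := by
    have h2 : Fintype.card (DirichletCharacter ℂ b) = b.totient := by
      rw [← Nat.card_eq_fintype_card, DirichletCharacter.card_eq_totient_of_hasEnoughRootsOfUnity]
    rw [← h2]
    exact_mod_cast Finset.card_le_univ _
  have hmain : ‖((b.totient * fW 0 N b r - x : ℝ) : ℂ)‖ ≤
      (|C1| * x / Real.log x ^ A + Real.log b) + b.totient * (C2 * x / Real.log x ^ A) := by
    rw [Complex.ofReal_sub, hfour]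
    rw [← Finset.add_sum_erase _ _ (Finset.mem_univ (1 : DirichletCharacter ℂ b))]
    have e1 : T 1 * conj ((1 : DirichletCharacter ℂ b) r) = T 1 := by
      have : IsUnit (r : ZMod b) := (ZMod.isUnit_iff_coprime r b).2 hrc
      rw [MulChar.one_apply this, map_one, mul_one]
    rw [e1]
    have e2 : T 1 + ∑ χ ∈ univ.erase (1 : DirichletCharacter ℂ b), T χ * conj (χ r) - x =
        (T 1 - x) + ∑ χ ∈ univ.erase (1 : DirichletCharacter ℂ b), T χ * conj (χ r) := by ring
    rw [e2]
    refine (norm_add_le _ _).trans (add_le_add hT1 ?_)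
    refine (norm_sum_le _ _).trans ?_
    have h2 : ∀ χ ∈ univ.erase (1 : DirichletCharacter ℂ b), ‖T χ * conj (χ r)‖ ≤
        C2 * x / Real.log x ^ A := by
      intro χ hχ
      rw [norm_mul, RCLike.norm_conj]
      have h3 : ‖χ r‖ ≤ 1 := χ.norm_le_one _
      calc ‖T χ‖ * ‖χ r‖ ≤ ‖T χ‖ * 1 := mul_le_mul_of_nonneg_left h3 (norm_nonneg _)
        _ ≤ _ := by
            rw [mul_one]
            exact hTχ χ (Finset.ne_of_mem_erase hχ)
    refine (Finset.sum_le_sum h2).trans ?_
    rw [Finset.sum_const, nsmul_eq_mul]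
    exact mul_le_mul_of_nonneg_right hcard (by positivity)
  rw [Complex.norm_real, Real.norm_eq_abs] at hmain
  have e1 : fW 0 N b r - x / b.totient = (b.totient * fW 0 N b r - x) / b.totient := by
    field_simp
  rw [e1, abs_div, abs_of_pos (show (0 : ℝ) < b.totient by linarith), div_le_iff₀ (by linarith)]
  refine hmain.trans ?_
  have h3 : 0 ≤ |C1| * x / Real.log x ^ A := by positivity
  have h4 : 0 ≤ ((A + B).factorial : ℝ) * x / Real.log x ^ A := by positivity
  have h5 : |C1| * x / Real.log x ^ A ≤ |C1| * x / Real.log x ^ A * b.totient := by nlinarith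
  have h6 : Real.log b ≤ (A + B).factorial * x / Real.log x ^ A * b.totient := by nlinarith
  calc _ ≤ (|C1| * x / Real.log x ^ A * b.totient +
        (A + B).factorial * x / Real.log x ^ A * b.totient) +
        b.totient * (C2 * x / Real.log x ^ A) := by linarith
    _ = _ := by ring

end Pool.Agent.H55.Siegel
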