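import Mathlib

/-!
The Dirichlet coefficients of `ζ L(χ) L(η) L(ηχ)` are nonnegative for quadratic `χ`, `η`.
-/

set_option autoImplicit false

namespace Pool.Agent.H55.Siegel

open Complex ArithmeticFunction DirichletCharacter
open scoped ComplexOrder

variable {N : ℕ}

/-- the arithmetic function of a character -/
noncomputable def X (χ : DirichletCharacter ℂ N) : ArithmeticFunction ℂ :=
  toArithmeticFunction (χ ·)

lemma X_apply (χ : DirichletCharacter ℂ N) {n : ℕ} (hn : n ≠ 0) : X χ n = χ n := by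
  simp [X, toArithmeticFunction, hn]

/-- the coefficients of `ζ L(χ) L(η) L(ηχ)` -/
noncomputable def quad (χ η : DirichletCharacter ℂ N) : ArithmeticFunction ℂ :=
  χ.zetaMul * (X η * X (η * χ))

lemma twist (χ η : DirichletCharacter ℂ N) : X η * X (η * χ) = (X η).pmul χ.zetaMul := by
  ext n
  rcases eq_or_ne n 0 with rfl | hn
  · simp
  rw [pmul_apply, zetaMul, mul_apply, mul_apply, Finset.mul_sum]
  refine Finset.sum_congr rfl fun x hx => ?_
  obtain ⟨h1, h2⟩ := Nat.mem_divisorsAntidiagonal.1 hx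
  have hx1 : x.1 ≠ 0 := by rintro h; rw [h, zero_mul] at h1; exact hn h1.symm
  have hx2 : x.2 ≠ 0 := by rintro h; rw [h, mul_zero] at h1; exact hn h1.symm
  have e : toArithmeticFunction (χ ·) x.2 = χ x.2 := X_apply χ hx2
  rw [X_apply η hx1, X_apply _ hx2, X_apply η hn, e, ← h1, natCoe_apply, zeta_apply_ne hx1,
    MulChar.mul_apply]
  push_cast
  rw [map_mul]
  ring

lemma quad_comm (χ η : DirichletCharacter ℂ N) : quad χ η = quad η χ := by
  have e : ∀ ψ : DirichletCharacter ℂ N, ψ.zetaMul = (zeta : ArithmeticFunction ℂ) * X ψ :=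
    fun ψ => rfl
  rw [quad, quad, e, e, mul_comm η χ]
  ring

lemma aux {χ η : DirichletCharacter ℂ N} (hχ : χ ^ 2 = 1) {p : ℕ} (hp : p.Prime)
    (h : ∀ j : ℕ, 0 ≤ η p ^ j * χ.zetaMul (p ^ j)) (k : ℕ) : 0 ≤ quad χ η (p ^ k) := by
  rw [quad, twist, mul_apply]
  refine Finset.sum_nonneg fun x hx => ?_
  obtain ⟨h1, h2⟩ := Nat.mem_divisorsAntidiagonal.1 hx
  obtain ⟨j, _, hj⟩ := (Nat.dvd_prime_pow hp).1 (Dvd.intro_left _ h1)
  refine mul_nonneg (zetaMul_nonneg hχ _) ?_
  rw [pmul_apply, hj, X_apply η (pow_ne_zero _ hp.ne_zero)]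
  push_cast
  rw [map_pow]
  exact h j

lemma quad_prime_pow {χ η : DirichletCharacter ℂ N} (hχ : χ ^ 2 = 1) (hη : η ^ 2 = 1) {p : ℕ}
    (hp : p.Prime) (k : ℕ) : 0 ≤ quad χ η (p ^ k) := by
  have hz : ∀ {x : ℂ} (j : ℕ), x = 0 ∨ x = 1 → 0 ≤ x ^ j := by
    rintro x j (rfl | rfl)
    · exact pow_nonneg le_rfl _
    · rw [one_pow]; exact zero_le_one
  rcases MulChar.isQuadratic_iff_sq_eq_one.mpr hη p with h | h | h
  · exact aux hχ hp (fun j => mul_nonneg (hz j (Or.inl h)) (zetaMul_nonneg hχ _)) k
  · exact aux hχ hp (fun j => mul_nonneg (hz j (Or.inr h)) (zetaMul_nonneg hχ _)) k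
  · rcases MulChar.isQuadratic_iff_sq_eq_one.mpr hχ p with h' | h' | h'
    · rw [quad_comm]
      exact aux hη hp (fun j => mul_nonneg (hz j (Or.inl h')) (zetaMul_nonneg hη _)) k
    · rw [quad_comm]
      exact aux hη hp (fun j => mul_nonneg (hz j (Or.inr h')) (zetaMul_nonneg hη _)) k
    · refine aux hχ hp (fun j => ?_) k
      have e : χ.zetaMul (p ^ j) = if _root_.Even (j + 1) then 0 else 1 := by
        have e1 : χ.zetaMul (p ^ j) = ∑ i ∈ Nat.divisors (p ^ j), X χ i := by
          rw [zetaMul]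
          exact coe_zeta_mul_apply
        rw [e1, Nat.sum_divisors_prime_pow hp]
        have e2 : ∀ i ∈ Finset.range (j + 1), X χ (p ^ i) = (χ p) ^ i := by
          intro i _
          rw [X_apply χ (pow_ne_zero _ hp.ne_zero)]
          push_cast
          rw [map_pow]
        rw [Finset.sum_congr rfl e2]
        rw [h', neg_one_geom_sum]
      rw [e, h]
      split_ifs with h5
      · rw [mul_zero]
      · have : _root_.Even j := by
          rw [Nat.even_add_one, not_not] at h5
          exact h5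
        rw [this.neg_one_pow, one_mul]
        exact zero_le_one

lemma quad_nonneg {χ η : DirichletCharacter ℂ N} (hχ : χ ^ 2 = 1) (hη : η ^ 2 = 1) (n : ℕ) :
    0 ≤ quad χ η n := by
  have hm : (quad χ η).IsMultiplicative :=
    (isMultiplicative_zetaMul χ).mul
      ((isMultiplicative_toArithmeticFunction η).mul (isMultiplicative_toArithmeticFunction _))
  rcases eq_or_ne n 0 with rfl | hn
  · simp
  · simpa only [hm.multiplicative_factorization _ hn] using!
      Finset.prod_nonneg
        fun p hp ↦ quad_prime_pow hχ hη (Nat.prime_of_mem_primeFactors hp) _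

lemma quad_one (χ η : DirichletCharacter ℂ N) : quad χ η 1 = 1 :=
  ((isMultiplicative_zetaMul χ).mul
      ((isMultiplicative_toArithmeticFunction η).mul
        (isMultiplicative_toArithmeticFunction (η * χ)))).map_one

lemma X_summable (χ : DirichletCharacter ℂ N) {s : ℂ} (hs : 1 < s.re) :
    LSeriesSummable (X χ) s :=
  LSeriesSummable_of_bounded_of_one_lt_re (m := 1) (fun n hn ↦ by
    rw [X_apply χ hn]; exact norm_le_one χ _) hs

lemma X_LSeries (χ : DirichletCharacter ℂ N) [NeZero N] {s : ℂ} (hs : 1 < s.re) :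
    LSeries (X χ) s = LFunction χ s := by
  rw [LFunction_eq_LSeries χ hs]
  exact LSeries_congr (fun {n} hn => X_apply χ hn) s

lemma quad_summable (χ η : DirichletCharacter ℂ N) {s : ℂ} (hs : 1 < s.re) :
    LSeriesSummable (quad χ η) s :=
  ArithmeticFunction.LSeriesSummable_mul (LSeriesSummable_zetaMul χ hs)
    (ArithmeticFunction.LSeriesSummable_mul (X_summable η hs) (X_summable _ hs))

lemma zetaMul_LSeries (χ : DirichletCharacter ℂ N) [NeZero N] {s : ℂ} (hs : 1 < s.re) :
    LSeries (fun n => χ.zetaMul n) s = riemannZeta s * LFunction χ s := by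
  rw [zetaMul, ← ArithmeticFunction.coe_mul, LSeries_convolution']
  · rw [LFunction_eq_LSeries χ hs]
    congr 1
    · simp_rw [← LSeries_zeta_eq_riemannZeta hs, ← natCoe_apply]
    · exact LSeries_congr (fun {n} hn => X_apply χ hn) s
  · exact LSeriesSummable_zeta_iff.mpr hs
  · exact X_summable χ hs

lemma quad_LSeries (χ η : DirichletCharacter ℂ N) [NeZero N] {s : ℂ} (hs : 1 < s.re) :
    LSeries (quad χ η) s =
      riemannZeta s * (LFunction χ s * (LFunction η s * LFunction (η * χ) s)) := by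
  have h1 : LSeries (fun n => quad χ η n) s = LSeries (fun n => χ.zetaMul n) s *
      LSeries (fun n => (X η * X (η * χ) : ArithmeticFunction ℂ) n) s :=
    ArithmeticFunction.LSeries_mul' (LSeriesSummable_zetaMul χ hs)
      (ArithmeticFunction.LSeriesSummable_mul (X_summable η hs) (X_summable _ hs))
  have h2 : LSeries (fun n => (X η * X (η * χ) : ArithmeticFunction ℂ) n) s =
      LSeries (fun n => X η n) s * LSeries (fun n => X (η * χ) n) s :=
    ArithmeticFunction.LSeries_mul' (X_summable η hs) (X_summable _ hs)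
  have h3 := zetaMul_LSeries χ hs
  have e2 : LSeries (fun n => X η n) s = LFunction η s := X_LSeries η hs
  have e3 : LSeries (fun n => X (η * χ) n) s = LFunction (η * χ) s := X_LSeries _ hs
  rw [e2, e3] at h2
  rw [h3, h2] at h1
  refine Eq.trans h1 ?_
  ring

end Pool.Agent.H55.Siegel
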