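import Pool.Agent.H20.SW.Growth

/-!
Estermann's inequality: if `ζ G` has nonnegative Dirichlet coefficients, first coefficient `1`, and
`ζ₁(β) G(β) ≥ 0` at a real point `β < 1`, then `G 1` is not small.
-/

set_option autoImplicit false

namespace Pool.Agent.H55.Siegel

open Complex Finset Filter Topology Metric
open scoped ComplexOrder Nat

/-- Taylor coefficients at `2` of an entire function bounded by `B` on the circle of radius
`3/2`. -/
lemma taylor_bound {F : ℂ → ℂ} (hF : Differentiable ℂ F) {B : ℝ}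
    (h : ∀ s ∈ sphere (2 : ℂ) (3 / 2), ‖F s‖ ≤ B) (n : ℕ) :
    ‖iteratedDeriv n F 2‖ / n ! ≤ B * (2 / 3) ^ n := by
  have h1 := Complex.norm_iteratedDeriv_le_of_forall_mem_sphere_norm_le n
    (c := (2 : ℂ)) (R := 3 / 2) (C := B) (by norm_num) (f := F) hF.diffContOnCl h
  rw [div_le_iff₀ (by positivity)]
  refine h1.trans (le_of_eq ?_)
  rw [div_eq_mul_inv, ← inv_pow]
  norm_num
  ring

/-- the Taylor expansion at `2` along the real axis -/
lemma taylor_real {F : ℂ → ℂ} (hF : Differentiable ℂ F) (β : ℝ) :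
    HasSum (fun n : ℕ => ((-1) ^ n * iteratedDeriv n F 2).re / n ! * (2 - β) ^ n) (F β).re := by
  have h1 := Complex.hasSum_taylorSeries_of_entire hF 2 (β : ℂ)
  have h2 := Complex.hasSum_re h1
  have e : (fun n : ℕ => ((-1) ^ n * iteratedDeriv n F 2).re / n ! * (2 - β) ^ n) =
      fun n : ℕ => ((n ! : ℂ)⁻¹ • ((β : ℂ) - 2) ^ n • iteratedDeriv n F 2).re := by
    funext n
    have e1 : (n ! : ℂ)⁻¹ • ((β : ℂ) - 2) ^ n • iteratedDeriv n F 2 =
        (((n ! : ℝ)⁻¹ * (2 - β) ^ n : ℝ) : ℂ) * ((-1) ^ n * iteratedDeriv n F 2) := by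
      rw [smul_eq_mul, smul_eq_mul]
      have : ((β : ℂ) - 2) = (-1) * ((2 - β : ℝ) : ℂ) := by push_cast; ring
      rw [this, mul_pow]
      push_cast
      ring
    rw [e1, Complex.re_ofReal_mul]
    ring
  rw [e]
  exact h2

/-- iterated derivatives of `1/(s-1)` at `2` -/
lemma iter_inv (n : ℕ) : iteratedDeriv n (fun s : ℂ => (s - 1)⁻¹) 2 = (-1) ^ n * n ! := by
  have h := iter_deriv_inv_linear_sub (𝕜 := ℂ) n 1 1
  have e : (fun s : ℂ => (1 * s - 1)⁻¹) = fun s : ℂ => (s - 1)⁻¹ := by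
    funext s; rw [one_mul]
  rw [e] at h
  rw [iteratedDeriv_eq_iterate, h]
  norm_num

variable {a : ℕ → ℂ} {G : ℂ → ℂ}

/-- `F = (ζ₁ G - G 1)/(s-1)` -/
noncomputable def Fn (G : ℂ → ℂ) : ℂ → ℂ := dslope (fun s => riemannZeta₁ s * G s) 1

lemma Fn_diff (hG : Differentiable ℂ G) : Differentiable ℂ (Fn G) := by
  have h1 : Differentiable ℂ (fun s => riemannZeta₁ s * G s) := differentiable_riemannZeta₁.mul hG
  have h2 := (Complex.differentiableOn_dslope (s := Set.univ) (c := (1 : ℂ)) univ_mem).2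
    h1.differentiableOn
  exact differentiableOn_univ.1 h2

lemma Fn_of_ne {s : ℂ} (hs : s ≠ 1) : Fn G s = (s - 1)⁻¹ * (riemannZeta₁ s * G s - G 1) := by
  unfold Fn
  rw [dslope_of_ne _ hs, slope_def_field, div_eq_inv_mul]
  simp

lemma Fn_right (hEq : ∀ s : ℂ, 1 < s.re → LSeries a s = riemannZeta s * G s) {s : ℂ}
    (hs : 1 < s.re) : Fn G s = LSeries a s - G 1 * (s - 1)⁻¹ := by
  have hs1 : s ≠ 1 := by rintro rfl; simp at hs
  rw [Fn_of_ne hs1, hEq s hs, riemannZeta_eq_inv_sub_mul hs1]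
  ring

lemma absc (hs : ∀ s : ℂ, 1 < s.re → LSeriesSummable a s) :
    LSeries.abscissaOfAbsConv a ≤ 1 := by
  refine LSeries.abscissaOfAbsConv_le_of_forall_lt_LSeriesSummable' ?_
  intro y hy
  exact hs y (by simpa using (by exact_mod_cast hy : (1 : ℝ) < y))

/-- the Taylor coefficients of `F` are those of the Dirichlet series minus `λ` -/
lemma coef (hs : ∀ s : ℂ, 1 < s.re → LSeriesSummable a s)
    (hEq : ∀ s : ℂ, 1 < s.re → LSeries a s = riemannZeta s * G s) (n : ℕ) :
    (-1) ^ n * iteratedDeriv n (Fn G) 2 =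
      (-1) ^ n * iteratedDeriv n (LSeries a) 2 - n ! * G 1 := by
  have hab := absc hs
  have h2 : (2 : ℂ) ∈ {s : ℂ | 1 < s.re} := by simp
  have hopen : IsOpen {s : ℂ | 1 < s.re} := continuous_re.isOpen_preimage _ isOpen_Ioi
  have h1 : iteratedDeriv n (Fn G) 2 =
      iteratedDeriv n (fun s => LSeries a s - G 1 * (s - 1)⁻¹) 2 := by
    refine Filter.EventuallyEq.iteratedDeriv_eq n ?_
    filter_upwards [hopen.mem_nhds h2] with s hs'
    exact Fn_right hEq hs'
  have han : AnalyticAt ℂ (LSeries a) 2 := by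
    refine LSeries_analyticOnNhd a 2 ?_
    exact lt_of_le_of_lt hab (by exact_mod_cast (show (1 : ℝ) < 2 by norm_num))
  have han2 : AnalyticAt ℂ (fun s : ℂ => (s - 1)⁻¹) 2 := by
    refine AnalyticAt.inv (by fun_prop) ?_
    norm_num
  have han3 : AnalyticAt ℂ (fun s : ℂ => G 1 * (s - 1)⁻¹) 2 := analyticAt_const.mul han2
  rw [h1, iteratedDeriv_fun_sub han.contDiffAt han3.contDiffAt,
    iteratedDeriv_const_mul_field, iter_inv, mul_sub]
  congr 1
  have : ((-1 : ℂ) ^ n) * (-1) ^ n = 1 := by rw [← mul_pow]; norm_num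
  calc (-1) ^ n * (G 1 * ((-1) ^ n * n !)) = ((-1) ^ n * (-1) ^ n) * (n ! * G 1) := by ring
    _ = _ := by rw [this, one_mul]

/-- the first Taylor coefficient is at least one -/
lemma first (h0 : 0 ≤ a) (h1 : a 1 = 1) (hs : ∀ s : ℂ, 1 < s.re → LSeriesSummable a s) :
    1 ≤ (LSeries a 2).re := by
  have h2 := hs 2 (by norm_num)
  have h3 := Complex.hasSum_re h2.hasSum
  have h4 : ∀ n, 0 ≤ (LSeries.term a 2 n).re := by
    intro n
    have := LSeries.term_nonneg (h0 n) 2
    simpa using (Complex.le_def.1 this).1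
  have h5 := h3.summable.sum_le_tsum {1} (fun n _ => h4 n)
  rw [h3.tsum_eq] at h5
  simpa [LSeries.term, h1, LSeries] using h5

/-- **Estermann's inequality** -/
theorem estermann (h0 : 0 ≤ a) (h1 : a 1 = 1) (hs : ∀ s : ℂ, 1 < s.re → LSeriesSummable a s)
    (hG : Differentiable ℂ G)
    (hEq : ∀ s : ℂ, 1 < s.re → LSeries a s = riemannZeta s * G s) {B : ℝ}
    (hB : ∀ s ∈ closedBall (2 : ℂ) (3 / 2), ‖riemannZeta₁ s * G s‖ ≤ B) {β : ℝ}
    (hβ : 7 / 8 ≤ β) (hβ1 : β < 1) (hnn : 0 ≤ (riemannZeta₁ β * G β).re) {M : ℕ}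
    (hM : 16 * B * (3 / 4) ^ M ≤ 1 / 2) :
    (1 - β) / 2 ≤ (G 1).re * (2 - β) ^ M := by
  set lam := (G 1).re with hlam
  set t := 2 - β with ht
  have ht1 : 1 < t := by rw [ht]; linarith
  have ht9 : t ≤ 9 / 8 := by rw [ht]; linarith
  have hFd := Fn_diff hG
  have hB1 : ‖G 1‖ ≤ B := by
    have := hB 1 (by rw [mem_closedBall, dist_eq_norm]; norm_num)
    simpa using this
  have hB0 : 0 ≤ B := (norm_nonneg _).trans hB1
  -- coefficients
  set c : ℕ → ℝ := fun n => ((-1) ^ n * iteratedDeriv n (Fn G) 2).re / n ! with hc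
  have hsum : HasSum (fun n => c n * t ^ n) (Fn G β).re := taylor_real hFd β
  have hcl : ∀ n, -lam ≤ c n := by
    intro n
    simp only [hc]
    rw [coef hs hEq, le_div_iff₀ (by positivity)]
    have h2 := LSeries.iteratedDeriv_alternating h0 (x := 2)
      (lt_of_le_of_lt (absc hs) (by exact_mod_cast (show (1 : ℝ) < 2 by norm_num))) n
    have h3 := (Complex.le_def.1 h2).1
    simp only [Complex.zero_re, ofReal_ofNat] at h3
    have h4 : ((n ! : ℂ) * G 1).re = n ! * lam := by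
      rw [hlam]
      have : (n ! : ℂ) = ((n ! : ℝ) : ℂ) := by push_cast; rfl
      rw [this, Complex.re_ofReal_mul]
    rw [Complex.sub_re, h4]
    linarith
  have hc0 : 1 - lam ≤ c 0 := by
    simp only [hc]
    rw [coef hs hEq]
    have := first h0 h1 hs
    simp
    linarith
  have hcu : ∀ n, |c n| ≤ 4 * B * (2 / 3) ^ n := by
    intro n
    have h2 : ∀ s ∈ sphere (2 : ℂ) (3 / 2), ‖Fn G s‖ ≤ 4 * B := by
      intro s hs'
      have hd : 1 / 2 ≤ ‖s - 1‖ := by
        rw [mem_sphere, dist_eq_norm] at hs'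
        have h3 := norm_sub_norm_le (s - 2) (-1)
        have h4 : s - 2 - -1 = s - 1 := by ring
        rw [h4, hs', norm_neg, norm_one] at h3
        linarith
      have hs1 : s ≠ 1 := by
        rintro rfl
        rw [sub_self, norm_zero] at hd
        linarith
      rw [Fn_of_ne hs1, norm_mul, norm_inv]
      have h5 := hB s (sphere_subset_closedBall hs')
      have h6 : ‖riemannZeta₁ s * G s - G 1‖ ≤ 2 * B := by
        refine (norm_sub_le _ _).trans ?_
        linarith
      have h7 : ‖s - 1‖⁻¹ ≤ 2 := by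
        rw [inv_le_comm₀ (by linarith) (by norm_num)]
        linarith
      calc ‖s - 1‖⁻¹ * ‖riemannZeta₁ s * G s - G 1‖ ≤ 2 * (2 * B) := by gcongr
        _ = 4 * B := by ring
    have h3 := taylor_bound hFd h2 n
    refine le_trans ?_ h3
    simp only [hc]
    rw [abs_div, abs_of_pos (show (0 : ℝ) < (n ! : ℝ) by positivity)]
    gcongr
    refine (Complex.abs_re_le_norm _).trans ?_
    rw [norm_mul, norm_pow, norm_neg, norm_one, one_pow, one_mul]
  -- upper bound of `F β`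
  have hup : (Fn G β).re ≤ lam / (t - 1) := by
    have hb1 : (β : ℂ) ≠ 1 := by
      intro h
      have : β = 1 := by exact_mod_cast h
      linarith
    rw [Fn_of_ne hb1]
    have e : ((β : ℂ) - 1)⁻¹ = ((-(t - 1)⁻¹ : ℝ) : ℂ) := by
      rw [ht]
      push_cast
      rw [← inv_neg]
      congr 1
      ring
    rw [e, Complex.re_ofReal_mul, Complex.sub_re, div_eq_mul_inv]
    have h8 : 0 < (t - 1)⁻¹ := inv_pos.2 (by linarith)
    nlinarith [mul_nonneg h8.le hnn]
  -- the tail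
  have hq : ∀ n, |c n * t ^ n| ≤ 4 * B * (3 / 4) ^ n := by
    intro n
    rw [abs_mul, abs_of_nonneg (show 0 ≤ t ^ n by positivity)]
    calc |c n| * t ^ n ≤ (4 * B * (2 / 3) ^ n) * (9 / 8) ^ n := by
          gcongr
          exact hcu n
      _ = 4 * B * (3 / 4) ^ n := by
          rw [mul_assoc, ← mul_pow]
          norm_num
  have hgeo : HasSum (fun n : ℕ => 4 * B * (3 / 4) ^ (n + M)) (16 * B * (3 / 4) ^ M) := by
    have h9 := (hasSum_geometric_of_lt_one (show (0 : ℝ) ≤ 3 / 4 by norm_num) (by norm_num)).mul_left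
      (4 * B * (3 / 4) ^ M)
    have e1 : (fun n : ℕ => 4 * B * (3 / 4 : ℝ) ^ M * (3 / 4) ^ n) =
        fun n : ℕ => 4 * B * (3 / 4) ^ (n + M) := by
      funext n; rw [pow_add]; ring
    rw [e1] at h9
    have e2 : 4 * B * (3 / 4 : ℝ) ^ M * (1 - 3 / 4)⁻¹ = 16 * B * (3 / 4) ^ M := by
      norm_num
      ring
    rwa [e2] at h9
  have htail : -(16 * B * (3 / 4) ^ M) ≤ ∑' n, c (n + M) * t ^ (n + M) := by
    have h10 : |∑' n, c (n + M) * t ^ (n + M)| ≤ 16 * B * (3 / 4) ^ M := by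
      have h11 : ‖∑' n, c (n + M) * t ^ (n + M)‖ ≤ 16 * B * (3 / 4) ^ M :=
        tsum_of_norm_bounded hgeo (fun n => hq (n + M))
      exact h11
    exact (abs_le.1 h10).1
  have hsplit := hsum.summable.sum_add_tsum_nat_add M
  rw [hsum.tsum_eq] at hsplit
  -- the head
  have hhead : 1 - lam * ∑ n ∈ range M, t ^ n ≤ ∑ n ∈ range M, c n * t ^ n := by
    rcases Nat.eq_zero_or_pos M with h | h
    · exfalso
      rw [h] at hM
      have h12 := hcu 0
      have h13 : |c 0| ≤ 4 * B := by simpa using h12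
      have h14 : |lam| ≤ ‖G 1‖ := Complex.abs_re_le_norm _
      have h15 := (abs_le.1 h13).2
      have h16 := (abs_le.1 h14).2
      rw [pow_zero, mul_one] at hM
      linarith
    · obtain ⟨m, rfl⟩ : ∃ m, M = m + 1 := ⟨M - 1, by omega⟩
      rw [Finset.sum_range_succ' (fun n => c n * t ^ n), Finset.sum_range_succ' (fun n => t ^ n),
        mul_add, Finset.mul_sum]
      have h12 : -∑ n ∈ range m, lam * t ^ (n + 1) ≤ ∑ n ∈ range m, c (n + 1) * t ^ (n + 1) := by
        rw [← Finset.sum_neg_distrib]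
        refine Finset.sum_le_sum fun n _ => ?_
        have := hcl (n + 1)
        have h13 : 0 < t ^ (n + 1) := by positivity
        nlinarith
      simp only [pow_zero, mul_one]
      linarith
  have hgs : ∑ n ∈ range M, t ^ n = (t ^ M - 1) / (t - 1) := geom_sum_eq ht1.ne' M
  rw [hgs] at hhead
  have hfin : 1 / 2 ≤ lam * t ^ M / (t - 1) := by
    have e2 : lam * t ^ M / (t - 1) = lam / (t - 1) + lam * ((t ^ M - 1) / (t - 1)) := by
      field_simp
      ring
    rw [e2]
    linarith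
  rw [div_le_div_iff₀ (by norm_num) (by linarith)] at hfin
  have e3 : 1 - β = t - 1 := by rw [ht]; ring
  rw [e3]
  linarith

end Pool.Agent.H55.Siegel
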