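import Pool.Agent.H55.Siegel.Real
import Pool.Agent.H37.SFQ.CharSum

/-!
**Siegel's theorem**: for every `ε > 0` there is `c > 0` such that `|L(1,χ)| ≥ c d^(-ε)` for all
primitive quadratic characters `χ ≠ 1` modulo `d` (Estermann's proof).
-/

set_option autoImplicit false

namespace Pool.Agent.H55.Siegel

open Complex Finset Filter Topology Metric Pool.Agent.SW
open scoped ComplexOrder

/-- Estermann's inequality with the optimal number of terms -/
theorem estermann' {a : ℕ → ℂ} {G : ℂ → ℂ} (h0 : 0 ≤ a) (h1 : a 1 = 1)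
    (hs : ∀ s : ℂ, 1 < s.re → LSeriesSummable a s) (hG : Differentiable ℂ G)
    (hEq : ∀ s : ℂ, 1 < s.re → LSeries a s = riemannZeta s * G s) {B : ℝ} (hB1 : 1 ≤ B)
    (hB : ∀ s ∈ closedBall (2 : ℂ) (3 / 2), ‖riemannZeta₁ s * G s‖ ≤ B) {β : ℝ}
    (hβ : 7 / 8 ≤ β) (hβ1 : β < 1) (hnn : 0 ≤ (riemannZeta₁ β * G β).re) :
    (1 - β) / 6 * (32 * B) ^ (-(4 * (1 - β))) ≤ (G 1).re := by
  set M : ℕ := ⌈4 * Real.log (32 * B)⌉₊ with hM
  have hl : 0 ≤ Real.log (32 * B) := Real.log_nonneg (by linarith)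
  have hM1 : 4 * Real.log (32 * B) ≤ M := Nat.le_ceil _
  have hM2 : (M : ℝ) < 4 * Real.log (32 * B) + 1 := Nat.ceil_lt_add_one (by positivity)
  have hBp : 0 < 32 * B := by linarith
  have h34 : Real.log (3 / 4) ≤ -(1 / 4) := by
    have := Real.log_le_sub_one_of_pos (show (0 : ℝ) < 3 / 4 by norm_num)
    linarith
  have hMM : 16 * B * (3 / 4) ^ M ≤ 1 / 2 := by
    have h2 : ((3 : ℝ) / 4) ^ M ≤ (32 * B)⁻¹ := by
      rw [← Real.log_le_log_iff (by positivity) (by positivity), Real.log_pow, Real.log_inv]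
      nlinarith
    calc 16 * B * (3 / 4) ^ M ≤ 16 * B * (32 * B)⁻¹ := by gcongr
      _ = 1 / 2 := by field_simp; norm_num
  have hE := estermann h0 h1 hs hG hEq hB hβ hβ1 hnn hMM
  -- the power
  have hpow : (2 - β) ^ M ≤ 3 * (32 * B) ^ (4 * (1 - β)) := by
    have h2 : (2 - β) ≤ Real.exp (1 - β) := by
      have := Real.add_one_le_exp (1 - β)
      linarith
    calc (2 - β) ^ M ≤ Real.exp (1 - β) ^ M := by
          gcongr
          linarith
      _ = Real.exp (M * (1 - β)) := by rw [← Real.exp_nat_mul]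
      _ ≤ Real.exp (1 + Real.log (32 * B) * (4 * (1 - β))) := by
          apply Real.exp_le_exp.2
          nlinarith
      _ = Real.exp 1 * (32 * B) ^ (4 * (1 - β)) := by
          rw [Real.exp_add, Real.rpow_def_of_pos hBp]
      _ ≤ 3 * (32 * B) ^ (4 * (1 - β)) := by
          have := Real.exp_one_lt_d9
          gcongr
          linarith
  have hR : 0 < (32 * B) ^ (4 * (1 - β)) := Real.rpow_pos_of_pos hBp _
  have hlam : 0 < (G 1).re := by
    by_contra hcon
    push Not at hcon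
    have h3 : (G 1).re * (2 - β) ^ M ≤ 0 :=
      mul_nonpos_of_nonpos_of_nonneg hcon (pow_nonneg (by linarith) _)
    linarith
  rw [Real.rpow_neg hBp.le, ← div_eq_mul_inv, div_le_iff₀ hR]
  have h4 : (G 1).re * (2 - β) ^ M ≤ (G 1).re * (3 * (32 * B) ^ (4 * (1 - β))) := by
    gcongr
  linarith

/-- `(s-1) ζ(s)` is bounded on the disc -/
lemma zeta₁_bdd : ∃ K : ℝ, 1 ≤ K ∧ ∀ s ∈ closedBall (2 : ℂ) (3 / 2), ‖riemannZeta₁ s‖ ≤ K := by
  obtain ⟨C, hC⟩ := (isCompact_closedBall (2 : ℂ) (3 / 2)).exists_bound_of_continuousOn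
    differentiable_riemannZeta₁.continuous.continuousOn
  exact ⟨max 1 C, le_max_left _ _, fun s hs => (hC s hs).trans (le_max_right _ _)⟩

/-- crude bound of `L(s, χ)` on the disc -/
lemma L_bdd {q : ℕ} [NeZero q] (χ : DirichletCharacter ℂ q) (hχ : χ ≠ 1) {s : ℂ}
    (hs : s ∈ closedBall (2 : ℂ) (3 / 2)) : ‖DirichletCharacter.LFunction χ s‖ ≤ 8 * q := by
  rw [mem_closedBall, dist_eq_norm] at hs
  have hre : 1 / 2 ≤ s.re := by
    have h1 := (Complex.abs_re_le_norm (s - 2)).trans hs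
    have h2 := (abs_le.1 h1).1
    simp at h2
    linarith
  have hn : ‖s‖ ≤ 7 / 2 := by
    have h1 : s = (s - 2) + 2 := by ring
    rw [h1]
    refine (norm_add_le _ _).trans ?_
    have : ‖(2 : ℂ)‖ = 2 := by simp
    rw [this]
    linarith
  have h3 := LFunction_approx χ hχ (s := s) (by linarith) (N := 1) le_rfl
  simp at h3
  have h4 : ‖s‖ / s.re ≤ 7 := by
    rw [div_le_iff₀ (by linarith)]
    linarith
  have hq : (0 : ℝ) ≤ q := Nat.cast_nonneg _
  calc ‖DirichletCharacter.LFunction χ s‖ ≤ q * (1 + ‖s‖ / s.re) := h3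
    _ ≤ q * (1 + 7) := by gcongr
    _ = 8 * q := by ring

/-- `log^3` against a power -/
lemma log_cube_le {e : ℝ} (he : 0 < e) : ∃ C : ℝ, 0 < C ∧ ∀ x : ℝ, 1 ≤ x →
    (1 + Real.log (3 * x)) ^ 3 ≤ C * x ^ e := by
  refine ⟨(1 + 3 ^ (e / 3) / (e / 3)) ^ 3, by positivity, fun x hx => ?_⟩
  have h1 : Real.log (3 * x) ≤ (3 * x) ^ (e / 3) / (e / 3) :=
    Real.log_le_rpow_div (by linarith) (by positivity)
  have h2 : 1 ≤ x ^ (e / 3) := Real.one_le_rpow hx (by positivity)
  have h3 : 1 + Real.log (3 * x) ≤ (1 + 3 ^ (e / 3) / (e / 3)) * x ^ (e / 3) := by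
    rw [Real.mul_rpow (by norm_num) (by linarith)] at h1
    have h4 : (3 : ℝ) ^ (e / 3) * x ^ (e / 3) / (e / 3) = 3 ^ (e / 3) / (e / 3) * x ^ (e / 3) := by
      ring
    rw [h4] at h1
    linarith
  have h0 : 0 ≤ Real.log (3 * x) := Real.log_nonneg (by linarith)
  calc (1 + Real.log (3 * x)) ^ 3 ≤ ((1 + 3 ^ (e / 3) / (e / 3)) * x ^ (e / 3)) ^ 3 := by
        gcongr
    _ = (1 + 3 ^ (e / 3) / (e / 3)) ^ 3 * x ^ e := by
        rw [mul_pow, ← Real.rpow_natCast (x ^ (e / 3)), ← Real.rpow_mul (by linarith)]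
        congr 2
        push_cast
        ring

/-- no zeros near `1` at all -/
theorem caseB {e : ℝ} (he : 0 < e) (he8 : e ≤ 1 / 8)
    (hz : ∀ β : ℝ, 1 - e ≤ β → β < 1 → 0 < (riemannZeta₁ β).re)
    (hno : ∀ (q : ℕ) [NeZero q] (χ : DirichletCharacter ℂ q), χ ≠ 1 → χ ^ 2 = 1 → ∀ x : ℝ,
      1 - e ≤ x → x < 1 → DirichletCharacter.LFunction χ x ≠ 0) :
    ∃ c : ℝ, 0 < c ∧ ∀ (q : ℕ) [NeZero q] (χ : DirichletCharacter ℂ q), χ ≠ 1 → χ ^ 2 = 1 →
      c * (q : ℝ) ^ (-(4 * e)) ≤ ‖DirichletCharacter.LFunction χ 1‖ := by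
  obtain ⟨K, hK1, hK⟩ := zeta₁_bdd
  refine ⟨e / 6 * (32 * (8 * K)) ^ (-(4 * e)), by positivity, ?_⟩
  intro q _ χ hχ h2
  have hq : (1 : ℝ) ≤ q := one_le_q
  have hEst := estermann' (a := fun n => χ.zetaMul n) (G := DirichletCharacter.LFunction χ)
    (B := 8 * K * q) (β := 1 - e)
    (fun n => DirichletCharacter.zetaMul_nonneg h2 n)
    (DirichletCharacter.isMultiplicative_zetaMul χ).map_one
    (fun s hs => DirichletCharacter.LSeriesSummable_zetaMul χ hs)
    (DirichletCharacter.differentiable_LFunction hχ)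
    (fun s hs => zetaMul_LSeries χ hs) (by nlinarith)
    (fun s hs => by
      rw [norm_mul]
      have h3 := hK s hs
      have h4 := L_bdd χ hχ hs
      calc ‖riemannZeta₁ s‖ * ‖DirichletCharacter.LFunction χ s‖ ≤ K * (8 * q) := by gcongr
        _ = 8 * K * q := by ring)
    (by linarith) (by linarith) (by
      have h3 := zeta₁_real (β := 1 - e) (by linarith)
      have h4 := hz (1 - e) le_rfl (by linarith)
      have h5 := L_pos hχ h2 (β := 1 - e) (by linarith) (by linarith) (hno q χ hχ h2)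
      rw [Complex.mul_re, h3, zero_mul, sub_zero]
      positivity)
  have e1 : 1 - (1 - e) = e := by ring
  rw [e1] at hEst
  have h6 := (hEst.trans ((le_abs_self _).trans (Complex.abs_re_le_norm _)))
  refine le_trans (le_of_eq ?_) h6
  have e2 : 32 * (8 * K * (q : ℝ)) = (32 * (8 * K)) * q := by ring
  rw [e2, Real.mul_rpow (x := 32 * (8 * K)) (y := (q : ℝ)) (by positivity) (by linarith)]
  ring

/-- one character with a zero near `1` -/
theorem caseA {e : ℝ} (he : 0 < e) (he8 : e ≤ 1 / 8) {N1 : ℕ} [NeZero N1]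
    (χ1 : DirichletCharacter ℂ N1) (hχ1 : χ1 ≠ 1) (h1 : χ1 ^ 2 = 1) {β : ℝ} (hβ : 1 - e ≤ β)
    (hβ1 : β < 1) (hz : DirichletCharacter.LFunction χ1 β = 0) :
    ∃ c : ℝ, 0 < c ∧ ∀ (q : ℕ) [NeZero q] (χ : DirichletCharacter ℂ q), χ.IsPrimitive → χ ≠ 1 →
      χ ^ 2 = 1 → c * (q : ℝ) ^ (-(13 * e)) ≤ ‖DirichletCharacter.LFunction χ 1‖ := by
  obtain ⟨K, hK1, hK⟩ := zeta₁_bdd
  obtain ⟨C, hC, hlog⟩ := log_cube_le he
  have hN1 : (1 : ℝ) ≤ N1 := one_le_q
  set D : ℝ := (1 - β) / 6 * (32 * (512 * K * N1 ^ 3)) ^ (-(4 * e)) /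
    (24 * 24 * (C * (N1 : ℝ) ^ e)) with hD
  have hD0 : 0 < D := by
    have : 0 < 1 - β := by linarith
    positivity
  refine ⟨min D (1 / (64 * N1)), by positivity, ?_⟩
  intro q _ χ hprim hχ h2
  have hq : (1 : ℝ) ≤ q := one_le_q
  rcases le_or_gt q N1 with hle | hgt
  · -- small conductors
    have h3 := LFunction_one_lower hχ h2
    refine le_trans ?_ h3
    have h4 : (q : ℝ) ^ (-(13 * e)) ≤ 1 := Real.rpow_le_one_of_one_le_of_nonpos hq (by linarith)
    have h5 : (q : ℝ) ≤ N1 := by exact_mod_cast hle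
    calc min D (1 / (64 * N1)) * (q : ℝ) ^ (-(13 * e)) ≤ (1 / (64 * N1)) * 1 := by
          gcongr
          exact min_le_right _ _
      _ ≤ 1 / (64 * q) := by rw [mul_one]; gcongr
  -- large conductors
  have : NeZero (N1 * q) := ⟨mul_ne_zero (NeZero.ne N1) (NeZero.ne q)⟩
  set N := N1 * q with hN
  set χ1' := DirichletCharacter.changeLevel (Dvd.intro _ rfl : N1 ∣ N1 * q) χ1 with hχ1'
  set η := DirichletCharacter.changeLevel (Dvd.intro_left _ rfl : q ∣ N1 * q) χ with hη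
  have a1 : χ1' ^ 2 = 1 := by rw [hχ1', ← map_pow, h1, map_one]
  have a2 : η ^ 2 = 1 := by rw [hη, ← map_pow, h2, map_one]
  have b1 : χ1' ≠ 1 := by
    rw [hχ1', Ne, DirichletCharacter.changeLevel_eq_one_iff]; exact hχ1
  have b2 : η ≠ 1 := by
    rw [hη, Ne, DirichletCharacter.changeLevel_eq_one_iff]; exact hχ
  have b3 : η * χ1' ≠ 1 := by
    intro h
    have h3 : χ1' = η := by
      have h4 : η * η = 1 := by rw [← sq, a2]
      calc χ1' = (η * η) * χ1' := by rw [h4, one_mul]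
        _ = η * (η * χ1') := by rw [mul_assoc]
        _ = η := by rw [h, mul_one]
    have h4 := congrArg DirichletCharacter.conductor h3
    rw [hχ1', hη, DirichletCharacter.conductor_changeLevel,
      DirichletCharacter.conductor_changeLevel, (χ.isPrimitive_def).1 hprim] at h4
    have h5 := Nat.le_of_dvd (Nat.pos_of_ne_zero (NeZero.ne N1))
      (DirichletCharacter.conductor_dvd_level χ1)
    omega
  have hNr : (N : ℝ) = N1 * q := by rw [hN]; push_cast; ring
  have hN1' : (1 : ℝ) ≤ N := one_le_q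
  set G : ℂ → ℂ := fun s => DirichletCharacter.LFunction χ1' s *
    (DirichletCharacter.LFunction η s * DirichletCharacter.LFunction (η * χ1') s) with hG
  have hGd : Differentiable ℂ G :=
    (DirichletCharacter.differentiable_LFunction b1).mul
      ((DirichletCharacter.differentiable_LFunction b2).mul
        (DirichletCharacter.differentiable_LFunction b3))
  have hGz : G β = 0 := by
    simp only [hG]
    have h3 := DirichletCharacter.LFunction_changeLevel (Dvd.intro _ rfl : N1 ∣ N1 * q) χ1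
      (s := β) (Or.inl hχ1)
    rw [← hχ1', hz, zero_mul] at h3
    rw [h3, zero_mul]
  have hEst := estermann' (a := fun n => quad χ1' η n) (G := G)
    (B := 512 * K * (N : ℝ) ^ 3) (β := β)
    (fun n => quad_nonneg a1 a2 n) (quad_one χ1' η)
    (fun s hs => quad_summable χ1' η hs) hGd
    (fun s hs => quad_LSeries χ1' η hs) (by
      have : 1 ≤ (N : ℝ) ^ 3 := one_le_pow₀ hN1'
      nlinarith)
    (fun s hs => by
      simp only [hG]
      rw [norm_mul, norm_mul, norm_mul]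
      have h3 := hK s hs
      have h4 := L_bdd χ1' b1 hs
      have h5 := L_bdd η b2 hs
      have h6 := L_bdd _ b3 hs
      calc ‖riemannZeta₁ s‖ * (‖DirichletCharacter.LFunction χ1' s‖ *
            (‖DirichletCharacter.LFunction η s‖ * ‖DirichletCharacter.LFunction (η * χ1') s‖)) ≤
            K * ((8 * N) * ((8 * N) * (8 * N))) := by gcongr
        _ = 512 * K * (N : ℝ) ^ 3 := by ring)
    (by linarith) hβ1 (by rw [hGz, mul_zero]; simp)
  -- upper bound of `G 1`
  have hlg : lg (N : ℝ) 0 = Real.log (3 * N) := by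
    unfold lg
    rw [abs_zero, zero_add, mul_comm]
  have hlg1 : 1 ≤ Real.log (3 * (N : ℝ)) := by
    rw [← hlg]; exact one_le_lg hN1' 0
  have hL : ∀ ψ : DirichletCharacter ℂ N, ψ ≠ 1 →
      ‖DirichletCharacter.LFunction ψ 1‖ ≤ 24 * Real.log (3 * N) := by
    intro ψ hψ
    have h3 := norm_LFunction_le ψ hψ (s := 1) (by
      simp only [Complex.one_im, Complex.one_re]
      have : 0 ≤ 1 / (2 * lg (N : ℝ) 0) := by
        rw [hlg]; positivity
      linarith) (by simp)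
    rw [Complex.one_im, hlg] at h3
    exact h3
  have hL2 : ‖DirichletCharacter.LFunction η 1‖ ≤
      ‖DirichletCharacter.LFunction χ 1‖ * (1 + Real.log (3 * N)) := by
    have h3 := DirichletCharacter.LFunction_changeLevel (Dvd.intro_left _ rfl : q ∣ N1 * q) χ
      (s := 1) (Or.inl hχ)
    rw [← hη] at h3
    rw [h3, norm_mul]
    refine mul_le_mul_of_nonneg_left ?_ (norm_nonneg _)
    have h4 : 1 + Real.log ((N1 * q : ℕ) : ℝ) ≤ 1 + Real.log (3 * N) := by
      have : Real.log ((N1 * q : ℕ) : ℝ) ≤ Real.log (3 * N) := by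
        apply Real.log_le_log
        · push_cast; positivity
        · rw [hNr]; nlinarith [mul_pos (show (0:ℝ) < N1 by linarith) (show (0:ℝ) < q by linarith)]
      linarith
    refine le_trans ?_ ((prod_one_add_inv_le (NeZero.ne (N1 * q))).trans h4)
    rw [norm_prod]
    refine Finset.prod_le_prod (fun _ _ => norm_nonneg _) fun p hp => ?_
    have hpp := Nat.prime_of_mem_primeFactors hp
    refine (norm_sub_le _ _).trans ?_
    rw [norm_one, norm_mul, norm_cast_cpow hpp.one_lt.le, Complex.one_re, Real.rpow_neg_one]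
    have h5 := χ.norm_le_one (p : ZMod q)
    have h6 : (0 : ℝ) ≤ (p : ℝ)⁻¹ := by positivity
    nlinarith
  have hup : (G 1).re ≤ ‖DirichletCharacter.LFunction χ 1‖ * (24 * 24 * (1 + Real.log (3 * N)) ^ 3) := by
    refine (le_abs_self _).trans ((Complex.abs_re_le_norm _).trans ?_)
    simp only [hG]
    rw [norm_mul, norm_mul]
    have h3 := hL χ1' b1
    have h4 := hL _ b3
    have h5 : Real.log (3 * (N : ℝ)) ≤ 1 + Real.log (3 * N) := by linarith
    calc ‖DirichletCharacter.LFunction χ1' 1‖ * (‖DirichletCharacter.LFunction η 1‖ *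
          ‖DirichletCharacter.LFunction (η * χ1') 1‖) ≤
          (24 * (1 + Real.log (3 * N))) * ((‖DirichletCharacter.LFunction χ 1‖ *
            (1 + Real.log (3 * N))) * (24 * (1 + Real.log (3 * N)))) := by
          gcongr
          · linarith
          · linarith
      _ = _ := by ring
  have hfin : (1 - β) / 6 * (32 * (512 * K * (N : ℝ) ^ 3)) ^ (-(4 * e)) ≤
      ‖DirichletCharacter.LFunction χ 1‖ * (24 * 24 * (C * (N : ℝ) ^ e)) := by
    refine le_trans ?_ ((hEst.trans hup).trans ?_)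
    · have h1β : 0 ≤ (1 - β) / 6 := by linarith
      refine mul_le_mul_of_nonneg_left ?_ h1β
      apply Real.rpow_le_rpow_of_exponent_le
      · have : 1 ≤ (N : ℝ) ^ 3 := one_le_pow₀ hN1'
        nlinarith
      · linarith
    · gcongr
      exact hlog N hN1'
  -- extract
  have h7 : D * (q : ℝ) ^ (-(13 * e)) ≤ ‖DirichletCharacter.LFunction χ 1‖ := by
    have e1 : 32 * (512 * K * (N : ℝ) ^ 3) = (32 * (512 * K * N1 ^ 3)) * (q : ℝ) ^ 3 := by
      rw [hNr]; ring
    have e2 : ((q : ℝ) ^ 3) ^ (-(4 * e)) = (q : ℝ) ^ (-(12 * e)) := by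
      rw [← Real.rpow_natCast, ← Real.rpow_mul (by linarith)]
      congr 1
      push_cast
      ring
    have e3 : (N : ℝ) ^ e = (N1 : ℝ) ^ e * (q : ℝ) ^ e := by
      rw [hNr, Real.mul_rpow (by linarith) (by linarith)]
    rw [e1, Real.mul_rpow (by positivity) (by positivity), e2, e3] at hfin
    have hqe : 0 < (q : ℝ) ^ e := Real.rpow_pos_of_pos (by linarith) _
    have hN1e : 0 < (N1 : ℝ) ^ e := Real.rpow_pos_of_pos (by linarith) _
    have e4 : (q : ℝ) ^ (-(13 * e)) = (q : ℝ) ^ (-(12 * e)) / (q : ℝ) ^ e := by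
      rw [← Real.rpow_sub (by linarith)]
      congr 1
      ring
    rw [hD, e4, div_mul_div_comm, div_le_iff₀ (by positivity)]
    refine le_trans (le_of_eq ?_) (hfin.trans (le_of_eq ?_))
    · ring
    · ring
  refine le_trans ?_ h7
  gcongr
  exact min_le_left _ _

/-- **Siegel's theorem** -/
theorem siegel (ε : ℝ) (hε : 0 < ε) : ∃ c : ℝ, 0 < c ∧ ∀ (q : ℕ) [NeZero q]
    (χ : DirichletCharacter ℂ q), χ.IsPrimitive → χ ≠ 1 → χ ^ 2 = 1 →
      c * (q : ℝ) ^ (-ε) ≤ ‖DirichletCharacter.LFunction χ 1‖ := by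
  obtain ⟨e0, he0, he8, hz⟩ := zeta₁_pos
  set e : ℝ := min e0 (ε / 13) with he
  have he1 : 0 < e := by positivity
  have he2 : e ≤ e0 := min_le_left _ _
  have he3 : 13 * e ≤ ε := by
    have := min_le_right e0 (ε / 13)
    linarith
  have hmono : ∀ (q : ℕ) [NeZero q] (c x : ℝ), 0 < c → x ≤ ε →
      c * (q : ℝ) ^ (-ε) ≤ c * (q : ℝ) ^ (-x) := by
    intro q _ c x hc hx
    have hq : (1 : ℝ) ≤ q := one_le_q
    refine mul_le_mul_of_nonneg_left ?_ hc.le
    exact Real.rpow_le_rpow_of_exponent_le hq (by linarith)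
  by_cases hex : ∃ (N1 : ℕ) (_ : NeZero N1) (χ1 : DirichletCharacter ℂ N1), χ1 ≠ 1 ∧ χ1 ^ 2 = 1 ∧
      ∃ β : ℝ, 1 - e ≤ β ∧ β < 1 ∧ DirichletCharacter.LFunction χ1 β = 0
  · obtain ⟨N1, _, χ1, hχ1, h1, β, hβ, hβ1, hz1⟩ := hex
    obtain ⟨c, hc, h⟩ := caseA he1 (he2.trans he8) χ1 hχ1 h1 hβ hβ1 hz1
    exact ⟨c, hc, fun q _ χ hp hχ h2 => (hmono q c _ hc he3).trans (h q χ hp hχ h2)⟩
  · push Not at hex
    obtain ⟨c, hc, h⟩ := caseB he1 (he2.trans he8) (fun β h1 h2 => hz β (by linarith) h2)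
      (fun q _ χ hχ h2 x hx hx1 => hex q _ χ hχ h2 x hx hx1)
    exact ⟨c, hc, fun q _ χ _ hχ h2 =>
      (hmono q c _ hc (by linarith)).trans (h q χ hχ h2)⟩

end Pool.Agent.H55.Siegel
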