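import Pool.Agent.H55.Siegel.Est
import Pool.Agent.H55.Siegel.Coef
import Pool.Agent.H20.SW.Lower

/-!
Real values of `L(s, χ)` and `(s-1) ζ(s)` on the positive real axis, and signs.
-/

set_option autoImplicit false

namespace Pool.Agent.H55.Siegel

open Complex Finset Filter Topology Metric Pool.Agent.SW
open scoped ComplexOrder

lemma im_cpow (i : ℕ) (x : ℝ) : ∃ y : ℝ, (i : ℂ) ^ (x : ℂ) = (y : ℂ) :=
  ⟨(i : ℝ) ^ x, by rw [Complex.ofReal_cpow (Nat.cast_nonneg i)]; simp⟩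

lemma im_eq_zero_of_approx {z : ℂ} {S : ℕ → ℂ} (hS : ∀ n, (S n).im = 0) {C β : ℝ} (hβ : 0 < β)
    (h : ∀ n : ℕ, 1 ≤ n → ‖z - S n‖ ≤ C * (n : ℝ) ^ (-β)) : z.im = 0 := by
  have h1 : Tendsto (fun n : ℕ => C * (n : ℝ) ^ (-β)) atTop (𝓝 (C * 0)) :=
    ((tendsto_rpow_neg_atTop hβ).comp tendsto_natCast_atTop_atTop).const_mul C
  rw [mul_zero] at h1
  have h2 : |z.im| ≤ 0 := by
    refine ge_of_tendsto h1 ?_
    filter_upwards [eventually_ge_atTop 1] with n hn
    have h3 := Complex.abs_im_le_norm (z - S n)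
    rw [Complex.sub_im, hS n, sub_zero] at h3
    exact h3.trans (h n hn)
  exact abs_eq_zero.1 (le_antisymm h2 (abs_nonneg _))

lemma quad_val {d : ℕ} {χ : DirichletCharacter ℂ d} (h : χ ^ 2 = 1) (n : ℕ) :
    ∃ a : ℝ, χ (n : ZMod d) = (a : ℂ) := by
  rcases MulChar.isQuadratic_iff_sq_eq_one.mpr h n with h | h | h
  · exact ⟨0, by rw [h]; simp⟩
  · exact ⟨1, by rw [h]; simp⟩
  · exact ⟨-1, by rw [h]; simp⟩

lemma L_real {q : ℕ} [NeZero q] {χ : DirichletCharacter ℂ q} (hχ : χ ≠ 1) (h2 : χ ^ 2 = 1) {β : ℝ}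
    (hβ : 0 < β) : (DirichletCharacter.LFunction χ β).im = 0 := by
  refine im_eq_zero_of_approx (S := fun N => ∑ i ∈ Ico 1 N, χ (i : ZMod q) * (i : ℂ) ^ (-(β : ℂ)))
    (C := q * (1 + ‖(β : ℂ)‖ / β)) ?_ hβ ?_
  · intro N
    rw [Complex.im_sum]
    refine Finset.sum_eq_zero fun i _ => ?_
    obtain ⟨a, ha⟩ := quad_val h2 i
    obtain ⟨y, hy⟩ := im_cpow i (-β)
    have e : (-(β : ℂ)) = ((-β : ℝ) : ℂ) := by push_cast; rfl
    rw [ha, e, hy, ← Complex.ofReal_mul, Complex.ofReal_im]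
  · intro N hN
    have := LFunction_approx χ hχ (s := β) (by simpa using hβ) hN
    simpa using this

lemma zeta₁_real {β : ℝ} (hβ : 0 < β) : (riemannZeta₁ β).im = 0 := by
  refine im_eq_zero_of_approx
    (S := fun N => ((β : ℂ) - 1) * ∑ i ∈ Ico 1 N, (i : ℂ) ^ (-(β : ℂ)) + (N : ℂ) ^ (1 - (β : ℂ)))
    (C := ‖(β : ℂ) - 1‖ * (‖(β : ℂ)‖ / β)) ?_ hβ ?_
  · intro N
    have h1 : ∀ i : ℕ, ∃ y : ℝ, (i : ℂ) ^ (-(β : ℂ)) = (y : ℂ) := by
      intro i
      obtain ⟨y, hy⟩ := im_cpow i (-β)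
      exact ⟨y, by rw [← hy]; push_cast; rfl⟩
    choose y hy using h1
    obtain ⟨w, hw⟩ := im_cpow N (1 - β)
    have e : (1 - (β : ℂ)) = ((1 - β : ℝ) : ℂ) := by push_cast; rfl
    have e2 : ((β : ℂ) - 1) * ∑ i ∈ Ico 1 N, (i : ℂ) ^ (-(β : ℂ)) + (N : ℂ) ^ (1 - (β : ℂ)) =
        (((β - 1) * ∑ i ∈ Ico 1 N, y i + w : ℝ) : ℂ) := by
      rw [e, hw]
      push_cast
      rw [Finset.sum_congr rfl fun i _ => hy i]
    simp only [e2, Complex.ofReal_im]
  · intro N hN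
    have := zeta₁_approx (s := β) (by simpa using hβ) hN
    simpa using this

/-- `(s-1) ζ(s)` is positive on the real axis to the left of `1` -/
lemma zeta₁_pos : ∃ e0 : ℝ, 0 < e0 ∧ e0 ≤ 1 / 8 ∧ ∀ β : ℝ, 1 - e0 ≤ β → β < 1 →
    0 < (riemannZeta₁ β).re := by
  have hc : ContinuousAt (fun x : ℝ => (riemannZeta₁ (x : ℂ)).re) 1 := by
    refine Continuous.continuousAt ?_
    exact Complex.continuous_re.comp
      (differentiable_riemannZeta₁.continuous.comp Complex.continuous_ofReal)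
  have h1 : ∀ᶠ x : ℝ in 𝓝 1, 0 < (riemannZeta₁ (x : ℂ)).re := by
    refine hc.eventually (lt_mem_nhds ?_)
    simp
  obtain ⟨r, hr, h2⟩ := Metric.eventually_nhds_iff.1 h1
  refine ⟨min (r / 2) (1 / 8), by positivity, min_le_right _ _, fun β hβ hβ1 => h2 ?_⟩
  rw [Real.dist_eq, abs_lt]
  have := min_le_left (r / 2) (1 / 8)
  constructor <;> linarith

/-- if `L(s, χ)` has no zero on `[β, 1)` then it is positive at `β` -/
lemma L_pos {q : ℕ} [NeZero q] {χ : DirichletCharacter ℂ q} (hχ : χ ≠ 1) (h2 : χ ^ 2 = 1) {β : ℝ}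
    (hβ : 0 < β) (hβ1 : β < 1)
    (h : ∀ x : ℝ, β ≤ x → x < 1 → DirichletCharacter.LFunction χ x ≠ 0) :
    0 < (DirichletCharacter.LFunction χ β).re := by
  have hcont : Continuous fun x : ℝ => (DirichletCharacter.LFunction χ (x : ℂ)).re :=
    Complex.continuous_re.comp
      ((DirichletCharacter.differentiable_LFunction hχ).continuous.comp Complex.continuous_ofReal)
  -- positive at two
  have hpos : 0 < (DirichletCharacter.LFunction χ ((2 : ℝ) : ℂ)).re := by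
    have hs : 1 < (((2 : ℝ) : ℂ)).re := by simp
    have h3 := LSeries.positive (a := fun n => χ.zetaMul n) (x := 2)
      (fun n => DirichletCharacter.zetaMul_nonneg h2 n)
      (by rw [(DirichletCharacter.isMultiplicative_zetaMul χ).map_one]; exact zero_lt_one)
      (lt_of_le_of_lt (absc fun s hs => DirichletCharacter.LSeriesSummable_zetaMul χ hs)
        (by exact_mod_cast (show (1 : ℝ) < 2 by norm_num)))
    rw [zetaMul_LSeries χ hs] at h3
    have h4 := riemannZeta_pos_of_one_lt (x := 2) (by norm_num)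
    have h5 := (Complex.lt_def.1 h3)
    have h6 := (Complex.lt_def.1 h4)
    rw [Complex.mul_re, ← h6.2] at h5
    simp only [Complex.zero_re, Complex.zero_im, zero_mul, sub_zero] at h5 h6
    exact (pos_iff_pos_of_mul_pos h5.1).1 h6.1
  by_contra hcon
  push Not at hcon
  obtain ⟨x, hx, hx0⟩ := intermediate_value_Icc (show β ≤ 2 by linarith) hcont.continuousOn
    ⟨hcon, hpos.le⟩
  have hz : DirichletCharacter.LFunction χ (x : ℂ) = 0 := by
    refine Complex.ext hx0 ?_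
    exact L_real hχ h2 (lt_of_lt_of_le hβ hx.1)
  rcases lt_or_ge x 1 with h1 | h1
  · exact h x hx.1 h1 hz
  · exact DirichletCharacter.LFunction_ne_zero_of_one_le_re χ (Or.inl hχ) (by simpa using h1) hz

end Pool.Agent.H55.Siegel
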