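import Pool.Agent.H55.Siegel.Main
import Pool.Agent.H68.UF.Lower
import Pool.Agent.H63.SW.Final
import Pool.Agent.H37.SFQ.Variance
import Pool.Agent.H37.SFG.Theta

/-!
**The Siegel-Walfisz theorem** for all conductors up to `(log x)^B`, and in progressions.
Adapted from helper63's `H63/SW/Final` and helper68's `H68/UF/SWx`.
-/

set_option autoImplicit false

namespace Pool.Agent.H55.Siegel

open Pool.Agent.SW Pool.Agent.H68.UF
open Complex LSeries Filter Topology ArithmeticFunction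

/-- the size of the parameter against `(log x)^(1/2)` -/
lemma size_aux {B : ℕ} {c c2 d L : ℝ} (hc2 : 0 < c2) (hc : 0 < c) (hd1 : 1 ≤ d) (hL : 1 ≤ L)
    (hdx : d ≤ L ^ B) (hlog : ∀ u : ℝ, 1 ≤ u → (1 + Real.log u) ^ 12 ≤ c * u ^ (1 / 4 : ℝ)) :
    d ^ (1 / (4 * ((B : ℝ) + 1))) / (64 * c2) * (1 + Real.log d) ^ 12 ≤
      1 / (64 * c2) * (((B : ℝ) + 1) ^ 12 * c) * L ^ (1 - 1 / 2 : ℝ) := by
  have hL0 : 0 < L := by linarith
  have hB0 : (0 : ℝ) ≤ B := Nat.cast_nonneg _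
  have hlogL : 0 ≤ Real.log L := Real.log_nonneg hL
  have hlogd : 0 ≤ Real.log d := Real.log_nonneg hd1
  have hdL : Real.log d ≤ (B : ℝ) * Real.log L := by
    have h1 := Real.log_le_log (by linarith) hdx
    rw [Real.log_pow] at h1
    exact h1
  have h2 : (1 + Real.log d) ^ 12 ≤ ((B : ℝ) + 1) ^ 12 * (c * L ^ (1 / 4 : ℝ)) := by
    have h0 : 1 + Real.log d ≤ ((B : ℝ) + 1) * (1 + Real.log L) := by
      have : ((B : ℝ) + 1) * (1 + Real.log L) = B + 1 + B * Real.log L + Real.log L := by ring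
      rw [this]
      linarith
    calc (1 + Real.log d) ^ 12 ≤ (((B : ℝ) + 1) * (1 + Real.log L)) ^ 12 :=
          pow_le_pow_left₀ (by linarith) h0 12
      _ = ((B : ℝ) + 1) ^ 12 * (1 + Real.log L) ^ 12 := by rw [mul_pow]
      _ ≤ _ := mul_le_mul_of_nonneg_left (hlog L hL) (by positivity)
  have h3 : d ^ (1 / (4 * ((B : ℝ) + 1))) ≤ L ^ (1 / 4 : ℝ) := by
    calc d ^ (1 / (4 * ((B : ℝ) + 1))) ≤ (L ^ B) ^ (1 / (4 * ((B : ℝ) + 1))) :=
          Real.rpow_le_rpow (by linarith) hdx (by positivity)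
      _ = L ^ ((B : ℝ) * (1 / (4 * ((B : ℝ) + 1)))) := by
          rw [← Real.rpow_natCast, ← Real.rpow_mul hL0.le]
      _ ≤ L ^ (1 / 4 : ℝ) := by
          apply Real.rpow_le_rpow_of_exponent_le hL
          rw [mul_one_div, div_le_iff₀ (by positivity)]
          have : (1 / 4 : ℝ) * (4 * ((B : ℝ) + 1)) = B + 1 := by ring
          rw [this]
          linarith
  have e3 : L ^ (1 - 1 / 2 : ℝ) = L ^ (1 / 4 : ℝ) * L ^ (1 / 4 : ℝ) := by
    rw [← Real.rpow_add hL0]
    norm_num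
  rw [e3]
  calc d ^ (1 / (4 * ((B : ℝ) + 1))) / (64 * c2) * (1 + Real.log d) ^ 12
      ≤ L ^ (1 / 4 : ℝ) / (64 * c2) * (((B : ℝ) + 1) ^ 12 * (c * L ^ (1 / 4 : ℝ))) := by
        gcongr
    _ = _ := by ring

/-- prime sums of primitive characters of conductor up to `(log x)^B` -/
theorem theta_prim (A B : ℕ) : ∃ C : ℝ, ∀ x : ℝ, 2 ≤ x → ∀ d : ℕ, 1 ≤ d →
    (d : ℝ) ≤ Real.log x ^ B → ∀ χ : DirichletCharacter ℂ d, χ ≠ 1 → χ.IsPrimitive →
    ‖∑ p ∈ Finset.Ioc 0 ⌊x⌋₊ with p.Prime, χ p * ((Real.log p : ℝ) : ℂ)‖ ≤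
      C * x / Real.log x ^ A := by
  set ε : ℝ := 1 / (4 * ((B : ℝ) + 1)) with hε
  have hε0 : 0 < ε := by positivity
  obtain ⟨c1, hc1, hsieg⟩ := siegel ε hε0
  set c2 : ℝ := min c1 (1 / 64) with hc2def
  have hc2 : 0 < c2 := by positivity
  have hc2' : c2 ≤ 1 / 64 := min_le_right _ _
  have hc2'' : c2 ≤ c1 := min_le_left _ _
  -- the size of `M`
  set MM : ℕ → ℝ := fun d => (d : ℝ) ^ ε / (64 * c2) with hMM
  have hMM1 : ∀ d : ℕ, 1 ≤ d → 1 ≤ MM d := by
    intro d hd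
    have hd1 : (1 : ℝ) ≤ d := by exact_mod_cast hd
    simp only [hMM]
    rw [le_div_iff₀ (by positivity)]
    have := Real.one_le_rpow hd1 hε0.le
    linarith
  have hz : ∀ k : ℕ, ∃ C : ℝ, 0 ≤ C ∧ ∀ d : ℕ, 1 ≤ d →
      ∀ χ : DirichletCharacter ℂ d, χ ≠ 1 → χ.IsPrimitive → ∀ s : ℂ, 1 < s.re → s.re ≤ 2 →
      ‖LSeries (lk (fun n : ℕ => χ n * ((vonMangoldt n : ℝ) : ℂ)) k) s‖ ≤
        C * (MM d * Real.log (d * (|s.im| + 3)) ^ 12) ^ (k + 1) := by
    intro k
    obtain ⟨C, hC0, hC⟩ := char_F' k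
    refine ⟨C, hC0, fun d hd χ hχ hprim s h1 h2 => ?_⟩
    have : NeZero d := ⟨by omega⟩
    have e : lk (fun n : ℕ => χ n * ((vonMangoldt n : ℝ) : ℂ)) k =
        (fun n : ℕ => χ n * ((vonMangoldt n * Real.log n ^ k : ℝ) : ℂ)) := by
      funext n
      simp only [lk]
      push_cast
      ring
    rw [e]
    refine hC d χ hχ _ (hMM1 d hd) ?_ s h1 h2
    intro hsq
    have h3 := hsieg d χ hprim hχ hsq
    refine le_trans ?_ h3
    have hd1 : (1 : ℝ) ≤ d := by exact_mod_cast hd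
    have e2 : 1 / (64 * MM d) = c2 * (d : ℝ) ^ (-ε) := by
      simp only [hMM]
      rw [Real.rpow_neg (by linarith)]
      have : 0 < (d : ℝ) ^ ε := Real.rpow_pos_of_pos (by linarith) _
      field_simp
    rw [e2]
    have : 0 < (d : ℝ) ^ (-ε) := Real.rpow_pos_of_pos (by linarith) _
    gcongr
  set δ : ℝ := 1 / 2 with hδ
  have hδ0 : 0 < δ := by positivity
  set k : ℕ := ⌈2 * (A + 1) / δ⌉₊ with hk
  obtain ⟨C0, hC00, hC0⟩ := hz k
  obtain ⟨c, hc, hlog⟩ := one_add_log_pow_le 12 (show (0 : ℝ) < 1 / 4 by norm_num)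
  set c' : ℝ := 1 / (64 * c2) * (((B : ℝ) + 1) ^ 12 * c) with hc'
  have hc'0 : 0 < c' := by positivity
  obtain ⟨C1, hC1, hcore⟩ := core k (12 * (k + 1)) δ (C0 * c' ^ (k + 1)) hδ0 (by positivity)
  obtain ⟨C2, hC2, hsl⟩ := sqrt_log_le A
  refine ⟨(C1 + 2 * C2) + (Real.log 4 * 16) * Real.log 16 ^ A,
    fun x hx d hd hdx χ hχ hprim => ?_⟩
  have hl4 : 0 ≤ Real.log 4 := Real.log_nonneg (by norm_num)
  have hx0 : 0 < x := by linarith
  apply extend A (f := fun x => ‖∑ p ∈ Finset.Ioc 0 ⌊x⌋₊ with p.Prime,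
    χ p * ((Real.log p : ℝ) : ℂ)‖) (by positivity) (by positivity) _ _ hx
  · intro hx16
    have h1 := Chebyshev.theta_le_log4_mul_x (show 0 ≤ x by linarith)
    have h3 : Real.log 4 * x ≤ Real.log 4 * 16 := mul_le_mul_of_nonneg_left hx16.le hl4
    refine le_trans ?_ (h1.trans h3)
    rw [Chebyshev.theta]
    apply norm_sum_le_of_le
    intro p hp
    rw [Finset.mem_filter, Finset.mem_Ioc] at hp
    rw [norm_mul, Complex.norm_real, Real.norm_of_nonneg (Real.log_natCast_nonneg p)]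
    have := DirichletCharacter.norm_le_one χ (p : ZMod d)
    have := Real.log_natCast_nonneg p
    nlinarith
  · intro hx16
    have hL := log16 hx16
    set L := Real.log x with hLdef
    have hL0 : 0 < L := by linarith
    set a : ℕ → ℂ := fun n : ℕ => χ n * ((vonMangoldt n : ℝ) : ℂ) with ha
    have hab' : ∀ n : ℕ, ‖a n‖ ≤ vonMangoldt n := by
      intro n
      simp only [ha]
      rw [norm_mul, Complex.norm_real, Real.norm_of_nonneg vonMangoldt_nonneg]
      have h1 := DirichletCharacter.norm_le_one χ (n : ZMod d)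
      have h2 : 0 ≤ vonMangoldt n := vonMangoldt_nonneg
      nlinarith
    have hab : ∀ n : ℕ, 1 ≤ n → ‖a n‖ ≤ 1 + Real.log n := by
      intro n hn
      have := vonMangoldt_le_log (n := n)
      linarith [hab' n]
    have hd1 : (1 : ℝ) ≤ d := by exact_mod_cast hd
    have hlogd : 0 ≤ Real.log d := Real.log_nonneg hd1
    have hlogL : 0 ≤ Real.log L := Real.log_nonneg hL
    have hD : MM d * (1 + Real.log d) ^ 12 ≤ c' * L ^ (1 - δ) :=
      size_aux hc2 hc hd1 hL hdx hlog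
    have h1 := hcore a hab x hx16 (by
      intro s hs1 hs2
      refine (hC0 d hd χ hχ hprim s hs1 hs2).trans ?_
      have hτ : 1 ≤ Real.log (|s.im| + 3) := by
        rw [Real.le_log_iff_exp_le (by positivity)]
        have := abs_nonneg s.im
        linarith [Real.exp_one_lt_d9]
      have hlm : Real.log (d * (|s.im| + 3)) ≤ (1 + Real.log d) * Real.log (|s.im| + 3) := by
        rw [Real.log_mul (by positivity) (by positivity)]
        nlinarith
      have hlm0 : 0 ≤ Real.log (d * (|s.im| + 3)) := by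
        apply Real.log_nonneg
        have := abs_nonneg s.im
        nlinarith
      have hM0 : 0 ≤ MM d := by linarith [hMM1 d hd]
      have h2 : (MM d * Real.log (d * (|s.im| + 3)) ^ 12) ^ (k + 1) ≤
          (c' * L ^ (1 - δ) * Real.log (|s.im| + 3) ^ 12) ^ (k + 1) := by
        apply pow_le_pow_left₀ (by positivity)
        calc MM d * Real.log (d * (|s.im| + 3)) ^ 12
            ≤ MM d *
                ((1 + Real.log d) * Real.log (|s.im| + 3)) ^ 12 :=
              mul_le_mul_of_nonneg_left (pow_le_pow_left₀ hlm0 hlm 12) hM0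
          _ = (MM d * (1 + Real.log d) ^ 12) *
                Real.log (|s.im| + 3) ^ 12 := by rw [mul_pow]; ring
          _ ≤ _ := mul_le_mul_of_nonneg_right hD (by positivity)
      calc C0 * (MM d * Real.log (d * (|s.im| + 3)) ^ 12) ^ (k + 1)
          ≤ C0 * (c' * L ^ (1 - δ) * Real.log (|s.im| + 3) ^ 12) ^ (k + 1) :=
            mul_le_mul_of_nonneg_left h2 hC00
        _ = C0 * c' ^ (k + 1) * L ^ ((1 - δ) * (k + 1)) *
            Real.log (|s.im| + 3) ^ (12 * (k + 1)) := by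
            rw [mul_pow, mul_pow, ← pow_mul, Real.rpow_mul hL0.le]
            have : (L ^ (1 - δ)) ^ (((k : ℝ)) + 1) = (L ^ (1 - δ)) ^ (k + 1) := by
              rw [← Real.rpow_natCast]
              push_cast
              rfl
            rw [this]
            ring)
    have hexp : L ^ (1 - δ * (k + 1) / 2) ≤ (L ^ A)⁻¹ := by
      rw [← Real.rpow_natCast L A, ← Real.rpow_neg hL0.le]
      apply Real.rpow_le_rpow_of_exponent_le hL
      have h2 : 2 * (A + 1) / δ ≤ k := Nat.le_ceil _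
      rw [div_le_iff₀ hδ0] at h2
      have h9 : δ * ((k : ℝ) + 1) / 2 = (k * δ) / 2 + δ / 2 := by ring
      rw [h9]
      have h10 : (0 : ℝ) < δ / 2 := by positivity
      have h11 : ((A : ℝ) + 1) ≤ (k * δ) / 2 := by rw [le_div_iff₀ (by norm_num)]; linarith
      linarith
    have h2 : ‖PS a ⌊x⌋₊‖ ≤ C1 * x / L ^ A := by
      refine h1.trans ?_
      rw [div_eq_mul_inv]
      exact mul_le_mul_of_nonneg_left hexp (by positivity)
    have h3 := Chebyshev.psi_sub_theta_le (show 1 ≤ x by linarith)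
    have h7 := hsl x hx16
    have hIcc : Finset.Icc 1 ⌊x⌋₊ = Finset.Ioc 0 ⌊x⌋₊ := by
      ext n; simp [Finset.mem_Icc, Finset.mem_Ioc]; omega
    have h4 : ∑ p ∈ Finset.Ioc 0 ⌊x⌋₊ with p.Prime, χ p * ((Real.log p : ℝ) : ℂ) =
        PS a ⌊x⌋₊ - ∑ n ∈ Finset.Ioc 0 ⌊x⌋₊ with ¬ n.Prime, a n := by
      unfold PS
      rw [hIcc, ← Finset.sum_filter_add_sum_filter_not (Finset.Ioc 0 ⌊x⌋₊) (fun n => n.Prime) a,
        add_sub_cancel_right]
      apply Finset.sum_congr rfl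
      intro p hp
      rw [Finset.mem_filter] at hp
      simp only [ha]
      rw [vonMangoldt_apply_prime hp.2]
    have h5 : ‖∑ n ∈ Finset.Ioc 0 ⌊x⌋₊ with ¬ n.Prime, a n‖ ≤
        Chebyshev.psi x - Chebyshev.theta x := by
      rw [Chebyshev.psi_sub_theta_eq_sum_not_prime]
      exact norm_sum_le_of_le _ fun n _ => hab' n
    change ‖∑ p ∈ Finset.Ioc 0 ⌊x⌋₊ with p.Prime, χ p * ((Real.log p : ℝ) : ℂ)‖ ≤ _
    rw [h4]
    refine (norm_sub_le _ _).trans ?_
    have h9 : (C1 + 2 * C2) * x / L ^ A = C1 * x / L ^ A + 2 * (C2 * x / L ^ A) := by ring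
    rw [h9]
    linarith

end Pool.Agent.H55.Siegel
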